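import Mathlib

/-!
A lower bound for the integral over `[0,1]` of the product of the factors `1 - s + s * x j`.
-/

open Finset

namespace Pool.Agent.P.MP_0234e1_an

lemma prod_hasDerivAt {𝕜 : Type*} [RCLike 𝕜] {κ : Type*} [Fintype κ] [DecidableEq κ]
    (b : κ → 𝕜) (s : 𝕜) :
    HasDerivAt (fun s : 𝕜 => ∏ j, (1 - s * b j))
      (-(∑ j, b j) * ∏ j, (1 - s * b j)
        - s * ∑ j, b j ^ 2 * ∏ i ∈ univ.erase j, (1 - s * b i)) s := by
  have h : ∀ j ∈ (univ : Finset κ), HasDerivAt (fun s : 𝕜 => 1 - s * b j) (-b j) s := by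
    intro j _
    simpa using ((hasDerivAt_id s).mul_const (b j)).const_sub 1
  have h2 := HasDerivAt.fun_finsetProd h
  refine h2.congr_deriv (Eq.symm ?_)
  rw [neg_mul, sum_mul, mul_sum, ← sum_neg_distrib, ← sum_sub_distrib]
  refine sum_congr rfl fun j _ => ?_
  rw [← mul_prod_erase univ (fun i => 1 - s * b i) (mem_univ j), smul_eq_mul]
  ring

lemma integral_mul_exp_le {L : ℝ} (hL : 0 < L) :
    ∫ s in (0 : ℝ)..1, s * Real.exp (-(s * L)) ≤ 1 / L ^ 2 := by
  have h : ∀ s ∈ Set.uIcc (0 : ℝ) 1,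
      HasDerivAt (fun s : ℝ => -(s / L + 1 / L ^ 2) * Real.exp (-(s * L)))
        (s * Real.exp (-(s * L))) s := by
    intro s _
    have h1 : HasDerivAt (fun s : ℝ => -(s / L + 1 / L ^ 2)) (-(1 / L)) s :=
      (((hasDerivAt_id s).div_const L).add_const _).neg
    have h2 : HasDerivAt (fun s : ℝ => Real.exp (-(s * L))) (Real.exp (-(s * L)) * (-L)) s := by
      have : HasDerivAt (fun s : ℝ => -(s * L)) (-L) s := by
        have h3 := ((hasDerivAt_id s).mul_const L).fun_neg
        simpa using h3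
      exact this.exp
    refine (h1.fun_mul h2).congr_deriv ?_
    field_simp
    ring
  rw [intervalIntegral.integral_eq_sub_of_hasDerivAt h (Continuous.intervalIntegrable (by fun_prop) _ _)]
  have : 0 ≤ (1 / L + 1 / L ^ 2) * Real.exp (-(1 * L)) := by positivity
  simp only [zero_div, zero_add, zero_mul, neg_zero, Real.exp_zero, mul_one]
  linarith

lemma integral_lower {κ : Type*} [Fintype κ] (x : κ → ℂ) (A : ℝ)
    (hA : ∑ j, ‖x j‖ ≤ A) (hL : A + 1 < Fintype.card κ) :
    (Fintype.card κ - A) / (Fintype.card κ + 1) - 4 * A / (Fintype.card κ - 1 - A) ^ 2 ≤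
      (Fintype.card κ + A) * ‖∫ s in (0 : ℝ)..1, ∏ j, (1 - (s : ℂ) * (1 - x j))‖ := by
  classical
  set N : ℝ := (Fintype.card κ : ℝ) with hN
  set L : ℝ := N - 1 - A with hLdef
  have hL0 : 0 < L := by linarith
  have hA0 : 0 ≤ ∑ j, ‖x j‖ := sum_nonneg fun _ _ => norm_nonneg _
  set b : κ → ℂ := fun j => 1 - x j with hb
  set r : κ → ℝ := fun j => 1 - ‖x j‖ with hr
  set B : ℂ := ∑ j, b j with hB
  set R : ℝ := ∑ j, r j with hR
  have hRval : R = N - ∑ j, ‖x j‖ := by
    rw [hR, sum_sub_distrib]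
    simp [hN]
  have hBn : ‖B‖ ≤ N + A := by
    calc ‖B‖ ≤ ∑ j, ‖b j‖ := norm_sum_le _ _
      _ ≤ ∑ j, (1 + ‖x j‖) := sum_le_sum fun j _ => by
          simpa [hb] using norm_sub_le (1 : ℂ) (x j)
      _ = N + ∑ j, ‖x j‖ := by rw [sum_add_distrib]; simp [hN]
      _ ≤ N + A := by linarith
  set g : ℝ → ℂ := fun s => ∏ j, (1 - (s : ℂ) * b j) with hg
  set e : ℝ → ℂ := fun s => (s : ℂ) * ∑ j, b j ^ 2 * ∏ i ∈ univ.erase j, (1 - (s : ℂ) * b i)
    with he
  set G : ℝ → ℝ := fun s => ∏ j, (1 - s * r j) with hG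
  set E : ℝ → ℝ := fun s => s * ∑ j, r j ^ 2 * ∏ i ∈ univ.erase j, (1 - s * r i) with hE
  have gc : Continuous g := by rw [hg]; fun_prop
  have ec : Continuous e := by rw [he]; fun_prop
  have Gc : Continuous G := by rw [hG]; fun_prop
  have Ec : Continuous E := by rw [hE]; fun_prop
  have dg : ∀ s ∈ Set.uIcc (0 : ℝ) 1, HasDerivAt g (-B * g s - e s) s := fun s _ =>
    (prod_hasDerivAt b (s : ℂ)).comp_ofReal
  have dG : ∀ s ∈ Set.uIcc (0 : ℝ) 1, HasDerivAt G (-R * G s - E s) s := fun s _ =>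
    prod_hasDerivAt r s
  have ig := intervalIntegral.integral_eq_sub_of_hasDerivAt dg
    (Continuous.intervalIntegrable (by fun_prop) _ _)
  have iG := intervalIntegral.integral_eq_sub_of_hasDerivAt dG
    (Continuous.intervalIntegrable (by fun_prop) _ _)
  rw [intervalIntegral.integral_sub (Continuous.intervalIntegrable (by fun_prop) _ _)
    (Continuous.intervalIntegrable (by fun_prop) _ _), intervalIntegral.integral_const_mul] at ig iG
  have g0 : g 0 = 1 := by simp [hg]
  have G0 : G 0 = 1 := by simp [hG]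
  have g1 : ‖g 1‖ = G 1 := by simp [hg, hG, hb, hr, norm_prod]
  have fac : ∀ s ∈ Set.Icc (0 : ℝ) 1, ∀ i, ‖1 - (s : ℂ) * b i‖ ≤ 1 - s * r i := by
    intro s hs i
    have : 1 - (s : ℂ) * b i = ((1 - s : ℝ) : ℂ) + (s : ℂ) * x i := by
      simp only [hb]
      push_cast
      ring
    rw [this]
    refine (norm_add_le _ _).trans (le_of_eq ?_)
    rw [norm_mul, Complex.norm_real, Complex.norm_real, Real.norm_eq_abs, Real.norm_eq_abs,
      abs_of_nonneg hs.1, abs_of_nonneg (by linarith [hs.2])]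
    simp only [hr]
    ring
  have fac0 : ∀ s ∈ Set.Icc (0 : ℝ) 1, ∀ i, 0 ≤ 1 - s * r i := fun s hs i =>
    (norm_nonneg _).trans (fac s hs i)
  have facexp : ∀ s ∈ Set.Icc (0 : ℝ) 1, ∀ j,
      ∏ i ∈ univ.erase j, (1 - s * r i) ≤ Real.exp (-(s * L)) := by
    intro s hs j
    calc ∏ i ∈ univ.erase j, (1 - s * r i) ≤ ∏ i ∈ univ.erase j, Real.exp (-(s * r i)) := by
          refine prod_le_prod (fun i _ => fac0 s hs i) fun i _ => ?_
          have := Real.add_one_le_exp (-(s * r i))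
          linarith
      _ = Real.exp (-(s * ∑ i ∈ univ.erase j, r i)) := by
          rw [← Real.exp_sum, sum_neg_distrib, mul_sum]
      _ ≤ Real.exp (-(s * L)) := by
          rw [Real.exp_le_exp, neg_le_neg_iff]
          apply mul_le_mul_of_nonneg_left _ hs.1
          have h1 := add_sum_erase univ r (mem_univ j)
          have h2 : r j ≤ 1 := by simp [hr]
          rw [← hR, hRval] at h1
          linarith
  have pw : ∀ s ∈ Set.Icc (0 : ℝ) 1, ‖e s‖ ≤ E s + 4 * A * (s * Real.exp (-(s * L))) := by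
    intro s hs
    have h1 : ‖e s‖ ≤ s * ∑ j, (r j ^ 2 * ∏ i ∈ univ.erase j, (1 - s * r i)
        + 4 * ‖x j‖ * Real.exp (-(s * L))) := by
      rw [he]
      simp only
      rw [norm_mul, Complex.norm_real, Real.norm_eq_abs, abs_of_nonneg hs.1]
      apply mul_le_mul_of_nonneg_left _ hs.1
      refine (norm_sum_le _ _).trans (sum_le_sum fun j _ => ?_)
      rw [norm_mul, norm_pow, norm_prod]
      have p1 : ∏ i ∈ univ.erase j, ‖1 - (s : ℂ) * b i‖ ≤ ∏ i ∈ univ.erase j, (1 - s * r i) :=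
        prod_le_prod (fun _ _ => norm_nonneg _) fun i _ => fac s hs i
      have p0 : 0 ≤ ∏ i ∈ univ.erase j, (1 - s * r i) := prod_nonneg fun i _ => fac0 s hs i
      have p2 : ‖b j‖ ^ 2 ≤ r j ^ 2 + 4 * ‖x j‖ := by
        have q1 : ‖b j‖ ≤ 1 + ‖x j‖ := by simpa [hb] using norm_sub_le (1 : ℂ) (x j)
        have q2 := pow_le_pow_left₀ (norm_nonneg _) q1 2
        simp only [hr]
        nlinarith
      calc ‖b j‖ ^ 2 * ∏ i ∈ univ.erase j, ‖1 - (s : ℂ) * b i‖
          ≤ (r j ^ 2 + 4 * ‖x j‖) * ∏ i ∈ univ.erase j, (1 - s * r i) :=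
            mul_le_mul p2 p1 (prod_nonneg fun _ _ => norm_nonneg _) (by positivity)
        _ ≤ _ := by
            rw [add_mul]
            have := mul_le_mul_of_nonneg_left (facexp s hs j) (show 0 ≤ 4 * ‖x j‖ by positivity)
            linarith
    rw [sum_add_distrib, mul_add, ← sum_mul, ← mul_sum] at h1
    have h2 : s * (4 * (∑ j, ‖x j‖) * Real.exp (-(s * L)))
        ≤ 4 * A * (s * Real.exp (-(s * L))) := by
      have : 0 ≤ s * Real.exp (-(s * L)) := mul_nonneg hs.1 (Real.exp_pos _).le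
      nlinarith
    simp only [hE]
    linarith
  have ie : ‖∫ s in (0 : ℝ)..1, e s‖ ≤ (∫ s in (0 : ℝ)..1, E s) + 4 * A / L ^ 2 := by
    calc ‖∫ s in (0 : ℝ)..1, e s‖ ≤ ∫ s in (0 : ℝ)..1, ‖e s‖ :=
          intervalIntegral.norm_integral_le_integral_norm zero_le_one
      _ ≤ ∫ s in (0 : ℝ)..1, (E s + 4 * A * (s * Real.exp (-(s * L)))) :=
          intervalIntegral.integral_mono_on zero_le_one
            (Continuous.intervalIntegrable (by fun_prop) _ _)
            (Continuous.intervalIntegrable (by fun_prop) _ _) pw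
      _ = (∫ s in (0 : ℝ)..1, E s) + 4 * A * ∫ s in (0 : ℝ)..1, s * Real.exp (-(s * L)) := by
          rw [intervalIntegral.integral_add (Continuous.intervalIntegrable (by fun_prop) _ _)
            (Continuous.intervalIntegrable (by fun_prop) _ _), intervalIntegral.integral_const_mul]
      _ ≤ _ := by
          have := mul_le_mul_of_nonneg_left (integral_mul_exp_le hL0)
            (show 0 ≤ 4 * A by linarith)
          rw [mul_one_div] at this
          linarith
  have iG0 : 1 / (N + 1) ≤ ∫ s in (0 : ℝ)..1, G s := by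
    have : ∫ s in (0 : ℝ)..1, (1 - s) ^ (Fintype.card κ) = 1 / (N + 1) := by
      rw [intervalIntegral.integral_comp_sub_left (fun s : ℝ => s ^ (Fintype.card κ)) 1]
      simp [hN]
    rw [← this]
    refine intervalIntegral.integral_mono_on zero_le_one
      (Continuous.intervalIntegrable (by fun_prop) _ _)
      (Continuous.intervalIntegrable (by fun_prop) _ _) fun s hs => ?_
    calc (1 - s) ^ (Fintype.card κ) = ∏ _j : κ, (1 - s) := by simp
      _ ≤ G s := by
          refine prod_le_prod (fun _ _ => by linarith [hs.2]) fun j _ => ?_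
          simp only [hr]
          nlinarith [hs.1, norm_nonneg (x j)]
  have hN0 : 0 < N + 1 := by linarith
  have k1 : (N - A) / (N + 1) ≤ R * ∫ s in (0 : ℝ)..1, G s := by
    rw [div_eq_mul_one_div]
    apply mul_le_mul (by linarith) iG0 (by positivity) (by linarith)
  have k2 : B * ∫ s in (0 : ℝ)..1, g s = 1 - g 1 - ∫ s in (0 : ℝ)..1, e s := by
    rw [g0] at ig
    linear_combination -ig
  have k3 : 1 - ‖g 1‖ - ‖∫ s in (0 : ℝ)..1, e s‖ ≤ ‖B * ∫ s in (0 : ℝ)..1, g s‖ := by
    rw [k2]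
    have t1 := norm_sub_norm_le (1 - g 1) (∫ s in (0 : ℝ)..1, e s)
    have t2 := norm_sub_norm_le (1 : ℂ) (g 1)
    rw [norm_one] at t2
    linarith
  rw [norm_mul] at k3
  have k4 := mul_le_mul_of_nonneg_right hBn (norm_nonneg (∫ s in (0 : ℝ)..1, g s))
  rw [G0] at iG
  linarith

end Pool.Agent.P.MP_0234e1_an
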