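import Pool.Agent.P.MP_0234e1_an.Mahler
import Pool.Agent.P.MP_0234e1_an.Integral

/-!
The main estimate: a zero-free disc of radius `R` for the derivative around a zero forces the
first absolute moment of the zeros to be at least `R (1 - 2/n - (4/n)^(1/3))`.
-/

open Polynomial Finset

namespace Pool.Agent.P.MP_0234e1_an

lemma integral_deriv_segment {ι : Type*} [Fintype ι] [DecidableEq ι] (z : ι → ℂ) (i0 : ι) (c : ℂ) :
    ∫ s in (0 : ℝ)..1, (derivative (∏ i, (X - C (z i)))).eval (z i0 + (s : ℂ) * (c - z i0))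
      = ∏ i ∈ univ.erase i0, (c - z i) := by
  set F : ℂ[X] := ∏ i, (X - C (z i)) with hF
  have hFQ : F = (X - C (z i0)) * ∏ i ∈ univ.erase i0, (X - C (z i)) := by
    rw [hF, mul_prod_erase univ (fun i => X - C (z i)) (mem_univ i0)]
  by_cases hc : c = z i0
  · rw [hc, hFQ]
    simp [eval_prod]
  have hc' : c - z i0 ≠ 0 := sub_ne_zero.mpr hc
  have d : ∀ s ∈ Set.uIcc (0 : ℝ) 1,
      HasDerivAt (fun s : ℝ => F.eval (z i0 + (s : ℂ) * (c - z i0)))
        ((derivative F).eval (z i0 + (s : ℂ) * (c - z i0)) * (c - z i0)) s := by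
    intro s _
    have h1 : HasDerivAt (fun u : ℂ => z i0 + u * (c - z i0)) (c - z i0) (s : ℂ) := by
      simpa using ((hasDerivAt_id (s : ℂ)).mul_const (c - z i0)).const_add (z i0)
    exact ((F.hasDerivAt _).comp (s : ℂ) h1).comp_ofReal
  have i1 := intervalIntegral.integral_eq_sub_of_hasDerivAt d
    (Continuous.intervalIntegrable (by fun_prop) _ _)
  rw [intervalIntegral.integral_mul_const] at i1
  apply mul_right_cancel₀ hc'
  rw [i1, hFQ]
  simp [eval_prod, mul_comm]

lemma core {ι κ : Type*} [Fintype ι] [Fintype κ] (z : ι → ℂ) (w : κ → ℂ)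
    (hc : Fintype.card ι = Fintype.card κ + 1)
    (H : derivative (∏ i, (X - C (z i))) = C (Fintype.card ι : ℂ) * ∏ j, (X - C (w j)))
    (i0 : ι) (c : ℂ) (R : ℝ) (hR0 : 0 < R) (hR : ∀ j, R ≤ ‖z i0 - w j‖) :
    ((Fintype.card ι : ℝ) - 2 - (∑ i, ‖z i - c‖) / R) ^ 3 ≤ 4 * (Fintype.card ι : ℝ) ^ 2 := by
  classical
  set n : ℝ := (Fintype.card ι : ℝ) with hn
  set N : ℝ := (Fintype.card κ : ℝ) with hN
  have hnN : n = N + 1 := by rw [hn, hN, hc]; push_cast; ring
  have hN0 : 0 ≤ N := Nat.cast_nonneg _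
  set A : ℝ := (∑ i, ‖z i - c‖) / R with hA
  have hA0 : 0 ≤ A := div_nonneg (sum_nonneg fun _ _ => norm_nonneg _) hR0.le
  by_cases hm : n - 2 - A ≤ 0
  · have : (n - 2 - A) ^ 3 ≤ 0 := Odd.pow_nonpos (by decide) hm
    nlinarith
  rw [not_le] at hm
  set a := z i0 with ha
  have hne : ∀ j, a - w j ≠ 0 := fun j h => by
    have := hR j
    rw [h, norm_zero] at this
    linarith
  set x : κ → ℂ := fun j => (c - w j) / (a - w j) with hx
  have hxA : ∑ j, ‖x j‖ ≤ A := by
    calc ∑ j, ‖x j‖ ≤ ∑ j, ‖w j - c‖ / R := sum_le_sum fun j _ => by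
          simp only [hx]
          rw [norm_div, norm_sub_rev c]
          exact div_le_div_of_nonneg_left (norm_nonneg _) hR0 (hR j)
      _ = (∑ j, ‖w j - c‖) / R := by rw [sum_div]
      _ ≤ A := div_le_div_of_nonneg_right (sum_norm_crit_le z w hc H c) hR0.le
  have low := integral_lower x A hxA (by linarith)
  set I := ∫ s in (0 : ℝ)..1, ∏ j, (1 - (s : ℂ) * (1 - x j)) with hI
  have seg := integral_deriv_segment z i0 c
  have e1 : ∀ s : ℝ, (derivative (∏ i, (X - C (z i)))).eval (a + (s : ℂ) * (c - a))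
      = ((Fintype.card ι : ℂ) * ∏ j, (a - w j)) * ∏ j, (1 - (s : ℂ) * (1 - x j)) := by
    intro s
    rw [H, eval_mul, eval_C, eval_prod, mul_assoc, ← prod_mul_distrib]
    congr 1
    refine prod_congr rfl fun j _ => ?_
    simp only [eval_sub, eval_X, eval_C, hx]
    field_simp [hne j]
    ring
  simp only [← ha, e1] at seg
  rw [intervalIntegral.integral_const_mul, ← hI] at seg
  have up1 : n * R ^ (Fintype.card κ) * ‖I‖ ≤ ∏ i ∈ univ.erase i0, ‖z i - c‖ := by
    have h1 := congrArg norm seg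
    rw [norm_mul, norm_mul, norm_prod, norm_prod, Complex.norm_natCast, ← hn] at h1
    have h2 : R ^ (Fintype.card κ) ≤ ∏ j, ‖a - w j‖ := by
      calc R ^ (Fintype.card κ) = ∏ _j : κ, R := by simp
        _ ≤ _ := prod_le_prod (fun _ _ => hR0.le) fun j _ => hR j
    calc n * R ^ (Fintype.card κ) * ‖I‖ ≤ n * (∏ j, ‖a - w j‖) * ‖I‖ := by
          gcongr
      _ = _ := by
          rw [h1]
          exact prod_congr rfl fun i _ => norm_sub_rev _ _
  have cardE : (univ.erase i0).card = Fintype.card κ := by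
    rw [card_erase_of_mem (mem_univ _), card_univ, hc]
    simp
  have up2 : ∏ i ∈ univ.erase i0, ‖z i - c‖ ≤ R ^ (Fintype.card κ) * Real.exp (A - N) := by
    calc ∏ i ∈ univ.erase i0, ‖z i - c‖
        ≤ ∏ i ∈ univ.erase i0, (R * Real.exp (‖z i - c‖ / R - 1)) := by
          refine prod_le_prod (fun _ _ => norm_nonneg _) fun i _ => ?_
          have := Real.add_one_le_exp (‖z i - c‖ / R - 1)
          rw [sub_add_cancel, div_le_iff₀ hR0] at this
          linarith
      _ = R ^ (Fintype.card κ) * Real.exp ((∑ i ∈ univ.erase i0, ‖z i - c‖) / R - N) := by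
          rw [prod_mul_distrib, prod_const, cardE, ← Real.exp_sum, sum_sub_distrib, sum_div]
          simp [cardE, hN]
      _ ≤ _ := by
          gcongr
          rw [hA]
          gcongr
          exact erase_subset _ _
  have up3 : n * ‖I‖ ≤ Real.exp (A - N) := by
    have h0 : 0 < R ^ (Fintype.card κ) := pow_pos hR0 _
    have := up1.trans up2
    nlinarith
  set m : ℝ := N - 1 - A with hmdef
  have hm0 : 0 < m := by linarith
  have up4 : Real.exp (A - N) ≤ 2 / m ^ 2 := by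
    have h1 := Real.quadratic_le_exp_of_nonneg (x := N - A) (by linarith)
    rw [show A - N = -(N - A) by ring, Real.exp_neg, inv_eq_one_div,
      div_le_div_iff₀ (Real.exp_pos _) (by positivity)]
    nlinarith
  have up5 : (N + A) * ‖I‖ ≤ 4 / m ^ 2 := by
    have h1 : (N + A) * ‖I‖ ≤ 2 * (n * ‖I‖) := by nlinarith [norm_nonneg I]
    have h2 : 4 / m ^ 2 = 2 * (2 / m ^ 2) := by ring
    linarith
  have fin1 : (N - A) / (N + 1) ≤ 4 * n / m ^ 2 := by
    have h1 : 4 * A / m ^ 2 + 4 / m ^ 2 ≤ 4 * n / m ^ 2 := by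
      rw [← add_div]
      gcongr
      linarith
    linarith
  rw [div_le_div_iff₀ (by linarith) (by positivity), ← hnN] at fin1
  have : n - 2 - A = m := by rw [hmdef, hnN]; ring
  rw [this]
  nlinarith [sq_nonneg m]

/-- The reciprocal of the constant. -/
noncomputable def dd (n : ℕ) : ℝ :=
  max (1 - 2 / (n : ℝ) - (4 / (n : ℝ)) ^ (1 / 3 : ℝ)) (1 / (2 * n + 1))

lemma dd_pos (n : ℕ) : 0 < dd n := lt_max_of_lt_right (by positivity)

lemma dd_le_one (n : ℕ) : dd n ≤ 1 := by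
  apply max_le
  · have h1 : 0 ≤ 2 / (n : ℝ) := by positivity
    have h2 : 0 ≤ (4 / (n : ℝ)) ^ (1 / 3 : ℝ) := by positivity
    linarith
  · rw [div_le_one (by positivity)]
    have : (0 : ℝ) ≤ n := Nat.cast_nonneg _
    linarith

lemma dd_tendsto : Filter.Tendsto dd Filter.atTop (nhds 1) := by
  have h1 : Filter.Tendsto (fun n : ℕ => 2 / (n : ℝ)) Filter.atTop (nhds 0) :=
    tendsto_const_div_atTop_nhds_zero_nat 2
  have h2 : Filter.Tendsto (fun n : ℕ => (4 / (n : ℝ)) ^ (1 / 3 : ℝ)) Filter.atTop (nhds 0) :=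
    (tendsto_const_div_atTop_nhds_zero_nat 4).rpow_const_nhds_zero (by norm_num)
  have h3 : Filter.Tendsto (fun n : ℕ => 1 - 2 / (n : ℝ) - (4 / (n : ℝ)) ^ (1 / 3 : ℝ))
      Filter.atTop (nhds 1) := by
    simpa using (tendsto_const_nhds.sub h1).sub h2
  exact tendsto_of_tendsto_of_tendsto_of_le_of_le h3 tendsto_const_nhds
    (fun n => le_max_left _ _) dd_le_one

lemma core2 {ι κ : Type*} [Fintype ι] [Fintype κ] [Nonempty κ] (z : ι → ℂ) (w : κ → ℂ)
    (hc : Fintype.card ι = Fintype.card κ + 1)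
    (H : derivative (∏ i, (X - C (z i))) = C (Fintype.card ι : ℂ) * ∏ j, (X - C (w j)))
    (i0 : ι) : ∃ j, ∀ c : ℂ,
      dd (Fintype.card ι) * ‖z i0 - w j‖ ≤ (∑ i, ‖z i - c‖) / Fintype.card ι := by
  obtain ⟨j, hj⟩ := Finite.exists_min fun j => ‖z i0 - w j‖
  refine ⟨j, fun c => ?_⟩
  set R := ‖z i0 - w j‖ with hR
  set S := ∑ i, ‖z i - c‖ with hS
  have hS0 : 0 ≤ S := sum_nonneg fun _ _ => norm_nonneg _
  set n : ℝ := (Fintype.card ι : ℝ) with hn
  have hn0 : 0 < n := by rw [hn, hc]; positivity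
  rcases (norm_nonneg (z i0 - w j)).eq_or_lt with h0 | h0
  · rw [hR, ← h0, mul_zero]
    positivity
  rw [← hR] at h0
  rw [dd, max_mul_of_nonneg _ _ h0.le, ← hn]
  apply max_le
  · have h1 := core z w hc H i0 c R h0 hj
    rw [← hn, ← hS] at h1
    have h2 : ((4 / n) ^ (1 / 3 : ℝ)) ^ 3 = 4 / n := by
      rw [← Real.rpow_natCast, ← Real.rpow_mul (by positivity)]
      norm_num
    have h3 : n - 2 - S / R ≤ n * (4 / n) ^ (1 / 3 : ℝ) := by
      apply le_of_pow_le_pow_left₀ (n := 3) (by norm_num) (by positivity)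
      rw [mul_pow, h2]
      calc _ ≤ 4 * n ^ 2 := h1
        _ = _ := by field_simp
    rw [le_div_iff₀ hn0]
    have h4 : (n - 2 - n * (4 / n) ^ (1 / 3 : ℝ)) * R ≤ S := by
      rw [← le_div_iff₀ h0]
      linarith
    calc _ = (n - 2 - n * (4 / n) ^ (1 / 3 : ℝ)) * R := by field_simp
      _ ≤ S := h4
  · have h1 : ‖z i0 - c‖ ≤ S :=
      single_le_sum (f := fun i => ‖z i - c‖) (fun _ _ => norm_nonneg _) (mem_univ i0)
    have h2 : ‖w j - c‖ ≤ S :=
      (single_le_sum (f := fun j => ‖w j - c‖) (fun _ _ => norm_nonneg _) (mem_univ j)).trans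
        (sum_norm_crit_le z w hc H c)
    have h3 : R ≤ ‖z i0 - c‖ + ‖w j - c‖ := by
      have := norm_sub_le (z i0 - c) (w j - c)
      rwa [sub_sub_sub_cancel_right] at this
    rw [one_div_mul_eq_div, div_le_div_iff₀ (by positivity) hn0]
    nlinarith

end Pool.Agent.P.MP_0234e1_an
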