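import Mathlib

/-!
Mahler's inequality for the derivative and the de Bruijn-Springer inequality for the
first absolute moment of the critical points.
-/

open Polynomial Real

namespace Pool.Agent.P.MP_0234e1_an

open Filter MeasureTheory Set in
lemma logMahler_mono {p q : ℂ[X]} (hp : p ≠ 0)
    (h : ∀ z : ℂ, ‖z‖ = 1 → ‖p.eval z‖ ≤ ‖q.eval z‖) :
    p.logMahlerMeasure ≤ q.logMahlerMeasure := by
  rw [logMahlerMeasure_def, logMahlerMeasure_def, circleAverage_def, circleAverage_def,
    smul_eq_mul, smul_eq_mul]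
  gcongr
  apply intervalIntegral.integral_mono_ae_restrict (by positivity)
    p.intervalIntegrable_mahlerMeasure q.intervalIntegrable_mahlerMeasure
  rw [EventuallyLE, eventually_iff_exists_mem]
  use {x : ℝ | eval (circleMap 0 1 x) p ≠ 0}
  constructor
  · rw [mem_ae_iff, compl_def, Measure.restrict_apply' (by simp)]
    apply (Finite.of_sdiff _ <| finite_singleton (2 * π)).measure_zero
    simp only [ne_eq, mem_ofPred_eq, Decidable.not_not, inter_sdiff_assoc, Icc_sdiff_right]
    rw [ofPred_inter_eq_sep]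
    apply Finite.of_finite_image (f := circleMap 0 1) ((Multiset.finite_toSet p.roots).subset _)
      <| fun _ h _ k l ↦ injOn_circleMap_of_abs_sub_le' one_ne_zero (by linarith) h.1 k.1 l
    simp [hp]
  · intro x hx
    apply Real.log_le_log (norm_pos_iff.mpr hx)
    apply h
    simp

/-- Gauss-Lucas for the closed unit disc. -/
lemma deriv_ne_zero_of_outside {P : ℂ[X]} (hd : P.derivative ≠ 0)
    (h : ∀ z : ℂ, 1 < ‖z‖ → P.eval z ≠ 0) (z : ℂ) (hz : 1 < ‖z‖) : P.derivative.eval z ≠ 0 := by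
  intro h0
  have hdeg : 0 < P.degree := by
    by_contra hh
    apply hd
    rw [not_lt] at hh
    rw [eq_C_of_degree_le_zero hh]
    simp
  have h1 : z ∈ P.derivative.rootSet ℂ := by
    rw [mem_rootSet]
    exact ⟨hd, by simpa using h0⟩
  have h2 := rootSet_derivative_subset_convexHull_rootSet hdeg h1
  have h3 : convexHull ℝ (P.rootSet ℂ) ⊆ Metric.closedBall 0 1 := by
    apply convexHull_min _ (convex_closedBall 0 1)
    intro y hy
    rw [mem_rootSet] at hy
    simp only [Metric.mem_closedBall, dist_zero_right]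
    by_contra hh
    exact h y (not_le.mp hh) (by simpa using hy.2)
  have := h3 h2
  simp only [Metric.mem_closedBall, dist_zero_right] at this
  linarith

/-- Bernstein's comparison theorem outside the unit disc. -/
lemma bernstein_compare {F G : ℂ[X]} {n : ℕ} (hn : 0 < n)
    (hG : G.natDegree = n) (hlc : ‖F.coeff n‖ ≤ ‖G.coeff n‖)
    (hG0 : ∀ z : ℂ, 1 < ‖z‖ → G.eval z ≠ 0)
    (hFG : ∀ z : ℂ, 1 < ‖z‖ → ‖F.eval z‖ ≤ ‖G.eval z‖) (z : ℂ) (hz : 1 < ‖z‖) :
    ‖F.derivative.eval z‖ ≤ ‖G.derivative.eval z‖ := by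
  have hGne : G ≠ 0 := by
    rintro rfl
    simp at hG
    omega
  have hGc : G.coeff n ≠ 0 := by
    rw [← hG]
    exact leadingCoeff_ne_zero.mpr hGne
  have hG' : G.derivative ≠ 0 := by
    intro h
    have := derivative_eq_zero.mp h
    omega
  have h1 := deriv_ne_zero_of_outside hG' hG0 z hz
  by_contra hlt
  rw [not_le] at hlt
  set l : ℂ := F.derivative.eval z / G.derivative.eval z with hl
  have hl1 : 1 < ‖l‖ := by
    rw [hl, norm_div, one_lt_div (norm_pos_iff.mpr h1)]
    exact hlt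
  have hc : (F - C l * G).coeff n ≠ 0 := by
    rw [coeff_sub, coeff_C_mul, sub_ne_zero]
    intro h
    rw [h, norm_mul] at hlc
    have := norm_pos_iff.mpr hGc
    nlinarith
  have hd : (F - C l * G).derivative ≠ 0 := by
    intro h
    have h2 := derivative_eq_zero.mp h
    have h3 := le_natDegree_of_ne_zero hc
    omega
  have h4 : ∀ y : ℂ, 1 < ‖y‖ → (F - C l * G).eval y ≠ 0 := by
    intro y hy
    rw [eval_sub, eval_mul, eval_C, sub_ne_zero]
    intro h
    have h5 := hFG y hy
    rw [h, norm_mul] at h5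
    have := norm_pos_iff.mpr (hG0 y hy)
    nlinarith
  apply deriv_ne_zero_of_outside hd h4 z hz
  rw [derivative_sub, derivative_C_mul, eval_sub, eval_mul, eval_C, hl, div_mul_cancel₀ _ h1,
    sub_self]

lemma le_on_circle {p q : ℂ[X]} (h : ∀ z : ℂ, 1 < ‖z‖ → ‖p.eval z‖ ≤ ‖q.eval z‖) (z : ℂ)
    (hz : ‖z‖ = 1) : ‖p.eval z‖ ≤ ‖q.eval z‖ := by
  have hc : IsClosed {y : ℂ | ‖p.eval y‖ ≤ ‖q.eval y‖} :=
    isClosed_le (by fun_prop) (by fun_prop)
  have ht : Filter.Tendsto (fun t : ℝ => (t : ℂ) * z) (nhdsWithin 1 (Set.Ioi 1)) (nhds z) := by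
    have : Filter.Tendsto (fun t : ℝ => (t : ℂ) * z) (nhds 1) (nhds (((1 : ℝ) : ℂ) * z)) :=
      Continuous.tendsto (by fun_prop) 1
    simp only [Complex.ofReal_one, one_mul] at this
    exact this.mono_left nhdsWithin_le_nhds
  apply hc.mem_of_tendsto ht
  filter_upwards [self_mem_nhdsWithin] with t ht
  apply h
  rw [norm_mul, hz, Complex.norm_real, Real.norm_eq_abs, mul_one]
  exact lt_of_lt_of_le ht (le_abs_self t)

/-- Mahler's inequality in terms of roots. -/
lemma sum_posLog_le {ι κ : Type*} [Fintype ι] [Fintype κ] (z : ι → ℂ) (w : κ → ℂ)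
    (hn : 0 < Fintype.card ι)
    (H : derivative (∏ i, (X - C (z i))) = C (Fintype.card ι : ℂ) * ∏ j, (X - C (w j))) :
    ∑ j, log⁺ ‖w j‖ ≤ ∑ i, log⁺ ‖z i‖ := by
  classical
  set n := Fintype.card ι with hndef
  set F : ℂ[X] := ∏ i, (X - C (z i)) with hF
  let a : ι → ℂ := fun i => if ‖z i‖ ≤ 1 then 1 else (starRingEnd ℂ) (z i)
  let y : ι → ℂ := fun i => if ‖z i‖ ≤ 1 then z i else ((starRingEnd ℂ) (z i))⁻¹
  have ha : ∀ i, ‖a i‖ = max 1 ‖z i‖ := by
    intro i
    by_cases h : ‖z i‖ ≤ 1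
    · simp [a, h]
    · simp only [a, h, if_false, RCLike.norm_conj]
      rw [max_eq_right (not_le.mp h).le]
  have hy : ∀ i, ‖y i‖ ≤ 1 := by
    intro i
    by_cases h : ‖z i‖ ≤ 1
    · simp [y, h]
    · simp only [y, h, if_false, norm_inv, RCLike.norm_conj]
      exact inv_le_one_of_one_le₀ (not_le.mp h).le
  have hcmp : ∀ i, ∀ x : ℂ, 1 < ‖x‖ → ‖x - z i‖ ≤ ‖a i * (x - y i)‖ := by
    intro i x hx
    by_cases h : ‖z i‖ ≤ 1
    · simp [a, y, h]
    · simp only [a, y, h, if_false]
      have h1 : 1 < ‖z i‖ := not_le.mp h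
      have h0 : (starRingEnd ℂ) (z i) ≠ 0 := by
        rw [_root_.map_ne_zero]
        intro h2
        rw [h2, norm_zero] at h1
        linarith
      rw [mul_sub, mul_inv_cancel₀ h0]
      apply le_of_sq_le_sq _ (norm_nonneg _)
      have e1 : 1 < ‖x‖ ^ 2 := by nlinarith
      have e2 : 1 < ‖z i‖ ^ 2 := by nlinarith
      rw [Complex.sq_norm, Complex.normSq_apply] at e1 e2
      rw [Complex.sq_norm, Complex.normSq_apply, Complex.sq_norm, Complex.normSq_apply]
      simp only [Complex.sub_re, Complex.sub_im, Complex.mul_re, Complex.mul_im,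
        Complex.conj_re, Complex.conj_im, Complex.one_re, Complex.one_im]
      nlinarith [mul_pos (sub_pos.mpr e1) (sub_pos.mpr e2)]
  set G0 : ℂ[X] := ∏ i, (X - C (y i)) with hG0
  set g : ℂ := ∏ i, a i with hg
  have hg1 : ‖g‖ = ∏ i, max 1 ‖z i‖ := by
    rw [hg, norm_prod]
    exact Finset.prod_congr rfl fun i _ => ha i
  have hg2 : 1 ≤ ‖g‖ := by
    rw [hg1]
    calc (1 : ℝ) = ∏ _i : ι, (1 : ℝ) := by simp
      _ ≤ _ := Finset.prod_le_prod (fun _ _ => zero_le_one) (fun i _ => le_max_left _ _)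
  have hg0 : g ≠ 0 := by
    intro h
    rw [h, norm_zero] at hg2
    linarith
  have hFm : F.Monic := monic_prod_of_monic _ _ fun i _ => monic_X_sub_C _
  have hG0m : G0.Monic := monic_prod_of_monic _ _ fun i _ => monic_X_sub_C _
  have hFd : F.natDegree = n := by
    rw [hF, natDegree_prod_of_monic _ _ fun i _ => monic_X_sub_C _]
    simp [hndef]
  have hG0d : G0.natDegree = n := by
    rw [hG0, natDegree_prod_of_monic _ _ fun i _ => monic_X_sub_C _]
    simp [hndef]
  set G : ℂ[X] := C g * G0 with hG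
  have hGd : G.natDegree = n := by rw [hG, natDegree_C_mul hg0, hG0d]
  have hGc : G.coeff n = g := by
    rw [hG, coeff_C_mul, ← hG0d, hG0m.coeff_natDegree, mul_one]
  have hGev : ∀ x, G.eval x = ∏ i, (a i * (x - y i)) := by
    intro x
    rw [hG, hG0, hg, eval_mul, eval_C, eval_prod, Finset.prod_mul_distrib]
    simp
  have hGne : ∀ x : ℂ, 1 < ‖x‖ → G.eval x ≠ 0 := by
    intro x hx
    rw [hG, eval_mul, eval_C, hG0, eval_prod]
    refine mul_ne_zero hg0 (Finset.prod_ne_zero_iff.mpr fun i _ => ?_)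
    simp only [eval_sub, eval_X, eval_C]
    intro h
    rw [sub_eq_zero] at h
    have := hy i
    rw [← h] at this
    linarith
  have hFG : ∀ x : ℂ, 1 < ‖x‖ → ‖F.eval x‖ ≤ ‖G.eval x‖ := by
    intro x hx
    rw [hGev, hF, eval_prod, norm_prod, norm_prod]
    refine Finset.prod_le_prod (fun i _ => norm_nonneg _) fun i _ => ?_
    simpa using hcmp i x hx
  have hB := bernstein_compare hn hGd
    (by rw [hGc, ← hFd, hFm.coeff_natDegree, norm_one]; exact hg2) hGne hFG
  have hF' : F.derivative ≠ 0 := by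
    intro h
    have := derivative_eq_zero.mp h
    omega
  have hG' : G.derivative ≠ 0 := by
    intro h
    have := derivative_eq_zero.mp h
    omega
  have hM := logMahler_mono hF' (le_on_circle hB)
  rw [logMahlerMeasure_eq_log_leadingCoeff_add_sum_log_roots,
    logMahlerMeasure_eq_log_leadingCoeff_add_sum_log_roots] at hM
  have hn0 : (n : ℂ) ≠ 0 := by exact_mod_cast hn.ne'
  have hWm : (∏ j, (X - C (w j)) : ℂ[X]).Monic := monic_prod_of_monic _ _ fun i _ => monic_X_sub_C _
  have e1 : F.derivative.leadingCoeff = n := by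
    rw [H, leadingCoeff_mul, leadingCoeff_C, hWm.leadingCoeff, mul_one]
  have e2 : F.derivative.roots = Finset.univ.val.map w := by
    rw [H, roots_C_mul _ hn0]
    rw [← roots_multiset_prod_X_sub_C (Finset.univ.val.map w), Multiset.map_map]
    rfl
  have e3 : G.derivative.leadingCoeff = g * n := by
    rw [leadingCoeff_derivative, hGd, leadingCoeff, hGd, hGc]
  have e4 : (G.derivative.roots.map (fun a ↦ log⁺ ‖a‖)).sum = 0 := by
    apply Multiset.sum_eq_zero
    intro x hx
    obtain ⟨u, hu, rfl⟩ := Multiset.mem_map.mp hx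
    rw [posLog_eq_zero_iff, abs_norm]
    by_contra hh
    exact deriv_ne_zero_of_outside hG' hGne u (not_le.mp hh) ((mem_roots hG').mp hu)
  rw [e1, e2, e3, e4, Multiset.map_map, norm_mul, Real.log_mul (norm_ne_zero_iff.mpr hg0)
    (norm_ne_zero_iff.mpr hn0), hg1, Real.log_prod (fun i _ => by positivity)] at hM
  have e5 : ∑ i, Real.log (max 1 ‖z i‖) = ∑ i, log⁺ ‖z i‖ :=
    Finset.sum_congr rfl fun i _ => (posLog_eq_log_max_one (norm_nonneg _)).symm
  have e6 : (Multiset.map ((fun a ↦ log⁺ ‖a‖) ∘ w) Finset.univ.val).sum = ∑ j, log⁺ ‖w j‖ := rfl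
  rw [e5, e6] at hM
  linarith

/-- The root relation is preserved under affine changes of variable. -/
lemma affine_change {ι κ : Type*} [Fintype ι] [Fintype κ] (z : ι → ℂ) (w : κ → ℂ)
    (hc : Fintype.card ι = Fintype.card κ + 1)
    (H : derivative (∏ i, (X - C (z i))) = C (Fintype.card ι : ℂ) * ∏ j, (X - C (w j)))
    (c t : ℂ) (ht : t ≠ 0) :
    derivative (∏ i, (X - C ((z i - c) / t))) =
      C (Fintype.card ι : ℂ) * ∏ j, (X - C ((w j - c) / t)) := by
  have key : ∀ u : ℂ, (X - C u).comp (C t * X + C c) = C t * (X - C ((u - c) / t)) := by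
    intro u
    simp only [sub_comp, X_comp, C_comp, mul_sub, ← C_mul]
    rw [mul_div_cancel₀ _ ht, C_sub]
    ring
  have h1 : (∏ i, (X - C (z i))).comp (C t * X + C c)
      = C t ^ Fintype.card ι * ∏ i, (X - C ((z i - c) / t)) := by
    rw [prod_comp, Finset.prod_congr rfl fun i _ => key (z i), Finset.prod_mul_distrib]
    simp
  have h2 : (∏ j, (X - C (w j))).comp (C t * X + C c)
      = C t ^ Fintype.card κ * ∏ j, (X - C ((w j - c) / t)) := by
    rw [prod_comp, Finset.prod_congr rfl fun i _ => key (w i), Finset.prod_mul_distrib]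
    simp
  have h3 := congrArg derivative h1
  rw [derivative_comp, H, mul_comp, C_comp, h2, ← C_pow, ← C_pow, derivative_C_mul, hc] at h3
  have h4 : (C (t ^ (Fintype.card κ + 1)) : ℂ[X]) ≠ 0 := by
    rw [Ne, C_eq_zero]
    exact pow_ne_zero _ ht
  apply mul_left_cancel₀ h4
  rw [← h3, hc]
  simp only [derivative_add, derivative_C_mul, derivative_X, derivative_C, pow_succ, C_mul]
  ring

lemma posLog_integral {x T : ℝ} (hx : 0 ≤ x) (hT : x ≤ T) :
    IntervalIntegrable (fun t => log⁺ (x / t)) MeasureTheory.volume 0 T ∧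
      ∫ t in (0 : ℝ)..T, log⁺ (x / t) = x := by
  rcases hx.eq_or_lt with rfl | hx
  · simp
  have e1 : Set.EqOn (fun t => Real.log x - Real.log t) (fun t => log⁺ (x / t)) (Set.uIoc 0 x) := by
    intro t ht
    rw [Set.uIoc_of_le hx.le] at ht
    have : 1 ≤ x / t := (one_le_div ht.1).mpr ht.2
    simp only
    rw [posLog_eq_log (by rwa [abs_of_nonneg (by linarith)]), Real.log_div hx.ne' ht.1.ne']
  have e2 : Set.EqOn (fun _ => (0 : ℝ)) (fun t => log⁺ (x / t)) (Set.uIoc x T) := by
    intro t ht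
    rw [Set.uIoc_of_le hT] at ht
    have h0 : 0 < t := hx.trans ht.1
    simp only
    rw [eq_comm, posLog_eq_zero_iff, abs_of_nonneg (by positivity), div_le_one h0]
    exact ht.1.le
  have i1 : IntervalIntegrable (fun t => Real.log x - Real.log t) MeasureTheory.volume 0 x :=
    intervalIntegrable_const.sub intervalIntegral.intervalIntegrable_log'
  have i1' := i1.congr e1
  have i2' := (intervalIntegrable_const (c := (0 : ℝ)) (μ := MeasureTheory.volume)
    (a := x) (b := T)).congr e2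
  refine ⟨i1'.trans i2', ?_⟩
  rw [← intervalIntegral.integral_add_adjacent_intervals i1' i2']
  have j1 : ∫ t in (0 : ℝ)..x, log⁺ (x / t) = ∫ t in (0 : ℝ)..x, (Real.log x - Real.log t) :=
    intervalIntegral.integral_congr_ae (Filter.Eventually.of_forall fun t ht => (e1 ht).symm)
  have j2 : ∫ t in x..T, log⁺ (x / t) = ∫ t in x..T, (0 : ℝ) :=
    intervalIntegral.integral_congr_ae (Filter.Eventually.of_forall fun t ht => (e2 ht).symm)
  rw [j1, j2, intervalIntegral.integral_sub intervalIntegrable_const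
    intervalIntegral.intervalIntegrable_log', integral_log]
  simp

/-- The de Bruijn-Springer inequality (weak form) for the first absolute moment. -/
lemma sum_norm_crit_le {ι κ : Type*} [Fintype ι] [Fintype κ] (z : ι → ℂ) (w : κ → ℂ)
    (hc : Fintype.card ι = Fintype.card κ + 1)
    (H : derivative (∏ i, (X - C (z i))) = C (Fintype.card ι : ℂ) * ∏ j, (X - C (w j)))
    (c : ℂ) : ∑ j, ‖w j - c‖ ≤ ∑ i, ‖z i - c‖ := by
  set T : ℝ := ∑ j, ‖w j - c‖ + ∑ i, ‖z i - c‖ with hT
  have s1 : 0 ≤ ∑ j, ‖w j - c‖ := Finset.sum_nonneg fun _ _ => norm_nonneg _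
  have s2 : 0 ≤ ∑ i, ‖z i - c‖ := Finset.sum_nonneg fun _ _ => norm_nonneg _
  have hw : ∀ j, ‖w j - c‖ ≤ T := fun j => by
    have := Finset.single_le_sum (f := fun j => ‖w j - c‖) (fun _ _ => norm_nonneg _)
      (Finset.mem_univ j)
    linarith
  have hz : ∀ i, ‖z i - c‖ ≤ T := fun i => by
    have := Finset.single_le_sum (f := fun i => ‖z i - c‖) (fun _ _ => norm_nonneg _)
      (Finset.mem_univ i)
    linarith
  have e1 : ∑ j, ‖w j - c‖ = ∫ t in (0 : ℝ)..T, ∑ j, log⁺ (‖w j - c‖ / t) := by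
    rw [intervalIntegral.integral_finsetSum fun j _ => (posLog_integral (norm_nonneg _) (hw j)).1]
    exact Finset.sum_congr rfl fun j _ => (posLog_integral (norm_nonneg _) (hw j)).2.symm
  have e2 : ∑ i, ‖z i - c‖ = ∫ t in (0 : ℝ)..T, ∑ i, log⁺ (‖z i - c‖ / t) := by
    rw [intervalIntegral.integral_finsetSum fun j _ => (posLog_integral (norm_nonneg _) (hz j)).1]
    exact Finset.sum_congr rfl fun j _ => (posLog_integral (norm_nonneg _) (hz j)).2.symm
  have i1 : IntervalIntegrable (fun t => ∑ j, log⁺ (‖w j - c‖ / t)) MeasureTheory.volume 0 T := by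
    have := IntervalIntegrable.sum (Finset.univ : Finset κ)
      fun j _ => (posLog_integral (norm_nonneg _) (hw j)).1
    refine this.congr fun t _ => ?_
    simp
  have i2 : IntervalIntegrable (fun t => ∑ i, log⁺ (‖z i - c‖ / t)) MeasureTheory.volume 0 T := by
    have := IntervalIntegrable.sum (Finset.univ : Finset ι)
      fun j _ => (posLog_integral (norm_nonneg _) (hz j)).1
    refine this.congr fun t _ => ?_
    simp
  rw [e1, e2]
  apply intervalIntegral.integral_mono_on (by linarith) i1 i2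
  intro t ht
  rcases ht.1.eq_or_lt with h0 | h0
  · simp [← h0]
  have := sum_posLog_le _ _ (by omega) (affine_change z w hc H c (t : ℂ) (by exact_mod_cast h0.ne'))
  simpa [norm_div, abs_of_pos h0] using this

end Pool.Agent.P.MP_0234e1_an
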